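import Mathlib

/-!
# Subset sums of generating sets of the least possible size

Let `G` be a finite abelian group and `r` the least number of generators of `G`. The least number of subset
sums of an `r`-element generating set which avoids `0` is `2 ^ r`, for every `m` it is at least `2 ^ r`, and it
is the order of `G` for all `m` if `G` is an elementary abelian `2`-group.
-/

set_option autoImplicit false

namespace Pool.Agent.Results.MP_ec93d3_co.SmallestGeneratingSets

open Finset
open scoped Classical

/-- `ΣA`, the set of all sums of distinct elements of `A` (with the empty sum `0`) -/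
noncomputable def sums {G : Type} [AddCommGroup G] (A : Finset G) : Finset G :=
  A.powerset.image fun B => ∑ b ∈ B, b

/-- The numbers `|ΣA|` for the generating sets `A` of `G` with `m` elements which do not contain `0`; the
least of them is the number of the problem for `(G, m)`, which is defined if the set is not empty. -/
def Values (G : Type) [AddCommGroup G] (m : ℕ) : Set ℕ :=
  {k | ∃ A : Finset G, (0 : G) ∉ A ∧ A.card = m ∧ AddSubgroup.closure (A : Set G) = ⊤ ∧
    (sums A).card = k}

section

variable {G : Type} [AddCommGroup G]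

theorem sums_mono {A B : Finset G} (h : B ⊆ A) : sums B ⊆ sums A :=
  Finset.image_subset_image (Finset.powerset_mono.2 h)

/-- one inclusion of two subsets with the same sum -/
theorem sub_of_eq {B : Finset G} (hB : AddSubgroup.closure (B : Set G) = ⊤)
    (hirr : ∀ b ∈ B, AddSubgroup.closure ((B.erase b : Finset G) : Set G) ≠ ⊤)
    {C D : Finset G} (hC : C ⊆ B) (hD : D ⊆ B) (h : ∑ b ∈ C, b = ∑ b ∈ D, b) : C ⊆ D := by
  intro b hb
  by_contra hbD
  apply hirr b (hC hb)
  rw [eq_top_iff, ← hB, AddSubgroup.closure_le]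
  have hmem : ∀ x ∈ B.erase b, x ∈ AddSubgroup.closure ((B.erase b : Finset G) : Set G) :=
    fun x hx => AddSubgroup.subset_closure (by exact_mod_cast hx)
  have h1 : b = ∑ x ∈ D, x - ∑ x ∈ C.erase b, x := by
    rw [← h, ← Finset.add_sum_erase C (fun x => x) hb]
    simp
  have hbm : b ∈ AddSubgroup.closure ((B.erase b : Finset G) : Set G) := by
    have h2 : ∑ x ∈ D, x - ∑ x ∈ C.erase b, x ∈
        AddSubgroup.closure ((B.erase b : Finset G) : Set G) :=
      AddSubgroup.sub_mem _
        (AddSubgroup.sum_mem _ fun x hx => hmem x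
          (Finset.mem_erase.2 ⟨fun e => hbD (e ▸ hx), hD hx⟩))
        (AddSubgroup.sum_mem _ fun x hx => hmem x
          (Finset.mem_erase.2 ⟨(Finset.mem_erase.1 hx).1, hC (Finset.mem_erase.1 hx).2⟩))
    rwa [← h1] at h2
  intro x hx
  by_cases hxb : x = b
  · rw [hxb]
    exact hbm
  · exact hmem x (Finset.mem_erase.2 ⟨hxb, by exact_mod_cast hx⟩)

/-- the subset sums of an irredundant generating set are distinct -/
theorem card_sums {B : Finset G} (hB : AddSubgroup.closure (B : Set G) = ⊤)
    (hirr : ∀ b ∈ B, AddSubgroup.closure ((B.erase b : Finset G) : Set G) ≠ ⊤) :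
    (sums B).card = 2 ^ B.card := by
  unfold sums
  rw [Finset.card_image_of_injOn, Finset.card_powerset]
  intro C hC D hD h
  have hC' : C ⊆ B := Finset.mem_powerset.1 (by exact_mod_cast hC)
  have hD' : D ⊆ B := Finset.mem_powerset.1 (by exact_mod_cast hD)
  exact Finset.Subset.antisymm (sub_of_eq hB hirr hC' hD' h) (sub_of_eq hB hirr hD' hC' h.symm)

theorem lower [Finite G] {A : Finset G} (hA : AddSubgroup.closure (A : Set G) = ⊤) :
    2 ^ AddGroup.rank G ≤ (sums A).card := by
  obtain ⟨B, hB, hmin⟩ := Finset.exists_min_image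
    (A.powerset.filter fun B : Finset G => AddSubgroup.closure (B : Set G) = ⊤) Finset.card
    ⟨A, Finset.mem_filter.2 ⟨Finset.mem_powerset_self A, hA⟩⟩
  rw [Finset.mem_filter, Finset.mem_powerset] at hB
  have hirr : ∀ b ∈ B, AddSubgroup.closure ((B.erase b : Finset G) : Set G) ≠ ⊤ := by
    intro b hb h
    have h1 := hmin (B.erase b) (Finset.mem_filter.2
      ⟨Finset.mem_powerset.2 ((Finset.erase_subset b B).trans hB.1), h⟩)
    have h2 := Finset.card_erase_lt_of_mem hb
    omega
  calc 2 ^ AddGroup.rank G ≤ 2 ^ B.card := Nat.pow_le_pow_right (by norm_num) (AddGroup.rank_le hB.2)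
    _ = (sums B).card := (card_sums hB.2 hirr).symm
    _ ≤ (sums A).card := Finset.card_le_card (sums_mono hB.1)

theorem closure_erase_zero {A : Finset G} (hA : AddSubgroup.closure (A : Set G) = ⊤) :
    AddSubgroup.closure ((A.erase 0 : Finset G) : Set G) = ⊤ := by
  rw [eq_top_iff, ← hA, AddSubgroup.closure_le]
  intro x hx
  by_cases h : x = 0
  · rw [h]
    exact AddSubgroup.zero_mem _
  · exact AddSubgroup.subset_closure (by
      rw [Finset.mem_coe, Finset.mem_erase]
      exact ⟨h, by exact_mod_cast hx⟩)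

theorem sums_eq (h2 : ∀ g : G, g + g = 0) {A : Finset G}
    (hA : AddSubgroup.closure (A : Set G) = ⊤) (g : G) : g ∈ sums A := by
  have hg : g ∈ AddSubgroup.closure (A : Set G) := by rw [hA]; exact AddSubgroup.mem_top g
  have key : ∃ B ⊆ A, g = ∑ b ∈ B, b := by
    refine AddSubgroup.closure_induction (p := fun g _ => ∃ B ⊆ A, g = ∑ b ∈ B, b) ?_ ?_ ?_ ?_ hg
    · intro x hx
      exact ⟨{x}, by simpa using hx, by simp⟩
    · exact ⟨∅, Finset.empty_subset A, by simp⟩
    · rintro x y - - ⟨B, hB, rfl⟩ ⟨C, hC, rfl⟩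
      refine ⟨(B \ C) ∪ (C \ B), Finset.union_subset (Finset.sdiff_subset.trans hB)
        (Finset.sdiff_subset.trans hC), ?_⟩
      rw [Finset.sum_union (Finset.disjoint_left.2 fun x hx hx' =>
        (Finset.mem_sdiff.1 hx).2 (Finset.mem_sdiff.1 hx').1),
        ← Finset.sum_inter_add_sum_sdiff B C (fun x => x),
        ← Finset.sum_inter_add_sum_sdiff C B (fun x => x), Finset.inter_comm C B]
      have h3 := h2 (∑ x ∈ B ∩ C, x)
      calc (∑ x ∈ B ∩ C, x + ∑ x ∈ B \ C, x) + (∑ x ∈ B ∩ C, x + ∑ x ∈ C \ B, x) =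
          (∑ x ∈ B ∩ C, x + ∑ x ∈ B ∩ C, x) + (∑ x ∈ B \ C, x + ∑ x ∈ C \ B, x) := by abel
        _ = _ := by rw [h3, zero_add]
    · rintro x - ⟨B, hB, rfl⟩
      exact ⟨B, hB, neg_eq_of_add_eq_zero_left (h2 _)⟩
  obtain ⟨B, hB, rfl⟩ := key
  exact Finset.mem_image.2 ⟨B, Finset.mem_powerset.2 hB, rfl⟩

end

/-- Let `G` be a finite abelian group and `r` its least number of generators. (1) The least number of subset
sums of an `r`-element generating set without `0` is `2 ^ r`. (2) Every generating set has at least `2 ^ r`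
subset sums. (3) If `G` is an elementary abelian `2`-group, the least number for `(G, m)` is the order of `G`
for all `m` for which it is defined. -/
theorem result (G : Type) [AddCommGroup G] [Finite G] :
    IsLeast (Values G (AddGroup.rank G)) (2 ^ AddGroup.rank G) ∧
    (∀ m : ℕ, ∀ k ∈ Values G m, 2 ^ AddGroup.rank G ≤ k) ∧
    ((∀ g : G, g + g = 0) → ∀ m : ℕ, (Values G m).Nonempty → IsLeast (Values G m) (Nat.card G)) := by
  have hlow : ∀ m : ℕ, ∀ k ∈ Values G m, 2 ^ AddGroup.rank G ≤ k := by
    rintro m k ⟨A, -, -, hA, rfl⟩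
    exact lower hA
  refine ⟨⟨?_, fun k hk => hlow _ k hk⟩, hlow, fun h2 m hm => ?_⟩
  · obtain ⟨S, hS, hS'⟩ := AddGroup.rank_spec G
    have hirr : ∀ b ∈ S, AddSubgroup.closure ((S.erase b : Finset G) : Set G) ≠ ⊤ := by
      intro b hb h
      have h1 := AddGroup.rank_le h
      have h3 := Finset.card_erase_lt_of_mem hb
      omega
    refine ⟨S, fun h0 => hirr 0 h0 (closure_erase_zero hS'), hS, hS', ?_⟩
    rw [card_sums hS' hirr, hS]
  · have hc : ∀ A : Finset G, AddSubgroup.closure (A : Set G) = ⊤ → (sums A).card = Nat.card G := by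
      intro A hA
      have := Fintype.ofFinite G
      have h1 : sums A = Finset.univ := Finset.eq_univ_iff_forall.2 fun g => sums_eq h2 hA g
      rw [h1, Finset.card_univ, Nat.card_eq_fintype_card]
    obtain ⟨k, A, h0, hAm, hA, -⟩ := hm
    refine ⟨⟨A, h0, hAm, hA, hc A hA⟩, ?_⟩
    rintro k ⟨A, -, -, hA, rfl⟩
    exact (hc A hA).ge

end Pool.Agent.Results.MP_ec93d3_co.SmallestGeneratingSets
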